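import Pool.Agent.H44.GT.Targets

/-!
# Limits of measures along an ultrafilter
-/

set_option autoImplicit false

namespace Pool.Agent.H74.GD

open Pool.Agent.H44.DU
open MeasureTheory Filter Topology

variable {n : ℕ}

lemma am_nonneg {S : Surf n} {t κ M : ℝ} {p : Fin n → ℝ → ℝ} (h : S.AM t κ M p) (i : Fin n)
    (x : ℝ) : 0 ≤ p i x := by
  rcases le_total x (S.xl t i) with hx | hx
  · exact (h.left i x hx).ge
  · rw [← h.left i _ le_rfl]
    exact h.mono i hx

lemma am_le {S : Surf n} {t κ M : ℝ} {p : Fin n → ℝ → ℝ} (h : S.AM t κ M p) (i : Fin n)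
    (x : ℝ) : p i x ≤ M := by
  rcases le_total x (S.xr t i) with hx | hx
  · exact (h.mono i hx).trans (h.mass i)
  · rw [h.right i x hx]
    exact h.mass i

lemma am_mono {S : Surf n} {t κ κ' M : ℝ} {p : Fin n → ℝ → ℝ} (h : S.AM t κ M p)
    (hk : κ ≤ κ') : S.AM t κ' M p :=
  ⟨h.mono, h.left, h.right, h.mass, fun r x y h1 h2 h3 => (h.glue r x y h1 h2 h3).trans hk⟩

lemma cont_xi (z : ℂ) : Continuous fun t : ℝ => xi t z := by
  unfold xi
  fun_prop

lemma cont_xl (S : Surf n) (i : Fin n) : Continuous fun t : ℝ => S.xl t i := by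
  unfold Surf.xl xi
  fun_prop

lemma cont_xr (S : Surf n) (i : Fin n) : Continuous fun t : ℝ => S.xr t i := by
  unfold Surf.xr xi
  fun_prop

theorem pf_M_LIM (hU : M_UNI) : M_LIM := by
  intro n S t c M hK hM U s κ p hs hκ hA
  -- the limit
  have hex : ∀ (i : Fin n) (x : ℝ), ∃ a : ℝ, 0 ≤ a ∧ a ≤ M ∧
      Tendsto (fun j => p j i x) U (𝓝 a) := by
    intro i x
    have h1 : ((U.map (fun j => p j i x) : Ultrafilter ℝ) : Filter ℝ) ≤ 𝓟 (Set.Icc 0 M) := by
      rw [Filter.le_principal_iff]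
      show _ ∈ U
      exact Filter.univ_mem' fun j => ⟨am_nonneg (hA j) i x, am_le (hA j) i x⟩
    obtain ⟨a, ha, hle⟩ := isCompact_Icc.ultrafilter_le_nhds _ h1
    exact ⟨a, ha.1, ha.2, hle⟩
  choose q hq0 hqM hq using hex
  -- equicontinuity
  have heq : ∀ ε : ℝ, 0 < ε → ∃ η > (0 : ℝ), ∀ᶠ j in (U : Filter ℕ), ∀ i x y, x ≤ y →
      y - x < η → p j i y - p j i x ≤ ε := by
    intro ε hε
    obtain ⟨η, hη, δ, hδ, κ₀, hκ₀, h⟩ := hU n S t c M ε hK hM hε
    refine ⟨η, hη, ?_⟩
    have h1 : ∀ᶠ j in (U : Filter ℕ), |s j - t| < δ := by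
      have := hs.eventually (Metric.ball_mem_nhds t hδ)
      filter_upwards [this] with j hj
      rw [← Real.dist_eq]
      exact hj
    have h2 : ∀ᶠ j in (U : Filter ℕ), κ j ≤ κ₀ := hκ.eventually (eventually_le_nhds hκ₀)
    filter_upwards [h1, h2] with j hj1 hj2 i x y hxy hd
    exact h (s j) hj1 (p j) (am_mono (hA j) hj2) i x y hxy hd
  have heq2 : ∀ ε : ℝ, 0 < ε → ∃ η > (0 : ℝ), ∀ᶠ j in (U : Filter ℕ), ∀ i x y, |y - x| < η →
      |p j i y - p j i x| ≤ ε := by
    intro ε hε
    obtain ⟨η, hη, h⟩ := heq ε hε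
    refine ⟨η, hη, ?_⟩
    filter_upwards [h] with j hj i x y hd
    rw [abs_lt] at hd
    rcases le_total x y with hxy | hxy
    · have h1 := (hA j).mono i hxy
      have h2 := hj i x y hxy hd.2
      rw [abs_le]
      constructor <;> linarith
    · have h1 := (hA j).mono i hxy
      have h2 := hj i y x hxy (by linarith)
      rw [abs_le]
      constructor <;> linarith
  have hlim : ∀ (i : Fin n) (x : ℝ) (y : ℕ → ℝ), Tendsto y U (𝓝 x) →
      Tendsto (fun j => p j i (y j)) U (𝓝 (q i x)) := by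
    intro i x y hy
    have h1 : Tendsto (fun j => p j i (y j) - p j i x) U (𝓝 0) := by
      rw [Metric.tendsto_nhds]
      intro ε hε
      obtain ⟨η, hη, h⟩ := heq2 (ε / 2) (by linarith)
      have h2 := hy.eventually (Metric.ball_mem_nhds x hη)
      filter_upwards [h, h2] with j hj hj2
      have h3 : |y j - x| < η := by
        rw [← Real.dist_eq]
        exact hj2
      rw [Real.dist_eq, sub_zero]
      exact (hj i x (y j) h3).trans_lt (by linarith)
    have h2 := h1.add (hq i x)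
    simpa using h2
  have hmono : ∀ i, _root_.Monotone (q i) := by
    intro i x y hxy
    exact le_of_tendsto_of_tendsto' (hq i x) (hq i y) fun j => (hA j).mono i hxy
  have hcont : ∀ i, Continuous (q i) := by
    intro i
    rw [Metric.continuous_iff]
    intro x ε hε
    obtain ⟨η, hη, h⟩ := heq2 (ε / 2) (by linarith)
    refine ⟨η, hη, ?_⟩
    intro y hy
    rw [Real.dist_eq] at hy ⊢
    have h1 : Tendsto (fun j => |p j i y - p j i x|) U (𝓝 |q i y - q i x|) :=
      ((hq i y).sub (hq i x)).abs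
    have h2 : |q i y - q i x| ≤ ε / 2 := by
      refine le_of_tendsto h1 ?_
      filter_upwards [h] with j hj
      exact hj i x y hy
    linarith
  have hleft : ∀ i x, x ≤ S.xl t i → q i x = 0 := by
    intro i x hx
    have h1 : Tendsto (fun j => min x (S.xl (s j) i)) U (𝓝 x) := by
      have h2 : Tendsto (fun j => min x (S.xl (s j) i)) U (𝓝 (min x (S.xl t i))) :=
        tendsto_const_nhds.min (((cont_xl S i).tendsto t).comp hs)
      rwa [min_eq_left hx] at h2
    have h3 := hlim i x _ h1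
    have h4 : (fun j => p j i (min x (S.xl (s j) i))) = fun _ => (0 : ℝ) := by
      funext j
      exact (hA j).left i _ (min_le_right _ _)
    rw [h4] at h3
    exact tendsto_nhds_unique h3 tendsto_const_nhds
  have hright : ∀ i x, S.xr t i ≤ x → q i x = q i (S.xr t i) := by
    intro i x hx
    have hxr : Tendsto (fun j => S.xr (s j) i) U (𝓝 (S.xr t i)) :=
      ((cont_xr S i).tendsto t).comp hs
    have h1 : Tendsto (fun j => max x (S.xr (s j) i)) U (𝓝 x) := by
      have h2 : Tendsto (fun j => max x (S.xr (s j) i)) U (𝓝 (max x (S.xr t i))) :=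
        tendsto_const_nhds.max hxr
      rwa [max_eq_left hx] at h2
    have h3 := hlim i x _ h1
    have h4 : (fun j => p j i (max x (S.xr (s j) i))) = fun j => p j i (S.xr (s j) i) := by
      funext j
      exact (hA j).right i _ (le_max_right _ _)
    rw [h4] at h3
    exact tendsto_nhds_unique h3 (hlim i _ _ hxr)
  refine ⟨q, ⟨⟨hmono, hcont, ?_⟩, hleft, hright⟩, fun i => hqM i _, hlim⟩
  intro r x y hx hxy hy
  rcases hxy.eq_or_lt with rfl | hlt
  · simp
  have hQ : Tendsto (fun j => xi (s j) (S.Q r)) U (𝓝 (xi t (S.Q r))) :=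
    ((cont_xi (S.Q r)).tendsto t).comp hs
  have hP : Tendsto (fun j => xi (s j) (S.P r)) U (𝓝 (xi t (S.P r))) :=
    ((cont_xi (S.P r)).tendsto t).comp hs
  have hQP : ∀ᶠ j in (U : Filter ℕ), xi (s j) (S.Q r) < xi (s j) (S.P r) :=
    hQ.eventually_lt hP (hx.trans_lt (hlt.trans_le hy))
  have hcl : ∀ z, xi t (S.Q r) ≤ z → z ≤ xi t (S.P r) →
      Tendsto (fun j => max (xi (s j) (S.Q r)) (min (xi (s j) (S.P r)) z)) U (𝓝 z) := by
    intro z h1 h2
    have h3 : Tendsto (fun j => max (xi (s j) (S.Q r)) (min (xi (s j) (S.P r)) z)) U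
        (𝓝 (max (xi t (S.Q r)) (min (xi t (S.P r)) z))) :=
      hQ.max (hP.min tendsto_const_nhds)
    rwa [min_eq_right h2, max_eq_right h1] at h3
  have hmv : ∀ (z : ℝ) (w : ℕ → ℝ), Tendsto w U (𝓝 z) →
      Tendsto (fun j => S.mv (s j) r (w j)) U (𝓝 (S.mv t r z)) := by
    intro z w hw
    unfold Surf.mv
    exact (hw.const_mul _).add (((cont_xi (S.b r)).tendsto t).comp hs)
  have hX := hcl x hx (hxy.trans hy)
  have hY := hcl y (hx.trans hxy) hy
  have hT := (((hlim (S.gl r).1 _ _ (hmv y _ hY)).sub (hlim (S.gl r).1 _ _ (hmv x _ hX))).sub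
    ((hlim r.1 y _ hY).sub (hlim r.1 x _ hX))).abs
  have hle := le_of_tendsto_of_tendsto hT hκ (by
    filter_upwards [hQP] with j hj
    refine (hA j).glue r _ _ (le_max_left _ _) ?_ ?_
    · gcongr
    · exact max_le hj.le (min_le_left _ _))
  have h0 := abs_nonpos_iff.1 hle
  linarith

end Pool.Agent.H74.GD
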