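import Pool.Agent.H44.GT.Targets
import Pool.Agent.H44.DU.Targets2

/-!
# Powers of short words are not realised
-/

set_option autoImplicit false

namespace Pool.Agent.H74.GD

open Pool.Agent.H44.DU

variable {n : ℕ}

lemma wd_succ (W : ℕ → Side n) (k : ℕ) : wd W (k + 1) = wd W k ++ [W k] := by
  simp [wd, List.range_succ]

lemma wd_add (W : ℕ → Side n) (m j : ℕ) :
    wd W (m + j) = wd W m ++ wd (fun i => W (m + i)) j := by
  simp only [wd, List.range_add, List.map_append, List.map_map]
  rfl

lemma wd_length (W : ℕ → Side n) (k : ℕ) : (wd W k).length = k := by simp [wd]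

lemma wd_take (W : ℕ → Side n) {k m : ℕ} (h : k ≤ m) : (wd W m).take k = wd W k := by
  obtain ⟨j, rfl⟩ := Nat.exists_eq_add_of_le h
  rw [wd_add, List.take_append_of_le_length (by rw [wd_length]),
    List.take_of_length_le (by rw [wd_length])]

lemma wd_get (W : ℕ → Side n) (k i : ℕ) (h : i < (wd W k).length) : (wd W k)[i] = W i := by
  simp [wd]

/-- A periodic sequence is not realised. -/
lemma per_main (hKD : T_KD) (hLH : T_LH) (S : Surf n) (t c₀ : ℝ) (hK : S.KM t c₀)
    (W : ℕ → Side n) (p : ℕ) (hp : 0 < p) (hW : ∀ k, W (k + p) = W k)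
    (H : ∀ K, ∃ x, S.Run t (wd W K) x) : False := by
  have hne : ∀ K, wd W (K + 1) ≠ [] := by
    intro K h
    have := congrArg List.length h
    rw [wd_length] at this
    simp at this
  have hrun : ∀ K x, S.Run t (wd W (K + 1)) x ↔
      S.lo t (wd W (K + 1)) < x ∧ x < S.hi t (wd W (K + 1)) := by
    intro K x
    obtain ⟨y, hy⟩ := H (K + 1)
    have h1 := (hLH n S t _ (hne K) y).1 hy
    rw [hLH n S t _ (hne K) x]
    exact ⟨fun h => h.2, fun h => ⟨h1.1, h⟩⟩
  set L : ℕ → ℝ := fun K => S.lo t (wd W (K + 1)) with hL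
  set R : ℕ → ℝ := fun K => S.hi t (wd W (K + 1)) with hR
  have hLR : ∀ K, L K < R K := by
    intro K
    obtain ⟨y, hy⟩ := H (K + 1)
    have := (hrun K y).1 hy
    exact this.1.trans this.2
  have hsub : ∀ K x, L (K + 1) < x → x < R (K + 1) → L K < x ∧ x < R K := by
    intro K x h1 h2
    have h3 : S.Run t (wd W (K + 1 + 1)) x := (hrun (K + 1) x).2 ⟨h1, h2⟩
    have h4 := Surf.run_take S h3 (K + 1)
    rw [wd_take W (Nat.le_succ _)] at h4
    exact (hrun K x).1 h4
  have hcl : ∀ K, Set.Icc (L K) (R K) = closure (Set.Ioo (L K) (R K)) := fun K =>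
    (closure_Ioo (hLR K).ne).symm
  have hmono : ∀ K, L K ≤ L (K + 1) ∧ R (K + 1) ≤ R K := by
    intro K
    have h1 : Set.Ioo (L (K + 1)) (R (K + 1)) ⊆ Set.Icc (L K) (R K) := by
      intro x hx
      have := hsub K x hx.1 hx.2
      exact ⟨this.1.le, this.2.le⟩
    have h2 := closure_minimal h1 isClosed_Icc
    rw [closure_Ioo (hLR (K + 1)).ne] at h2
    exact ⟨(h2 ⟨le_refl _, (hLR _).le⟩).1, (h2 ⟨(hLR _).le, le_refl _⟩).2⟩
  have hLm : Monotone L := monotone_nat_of_le_succ fun K => (hmono K).1
  have hRm : Antitone R := antitone_nat_of_succ_le fun K => (hmono K).2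
  have hij : ∀ i j, L i ≤ R j := by
    intro i j
    exact (hLm (le_max_left i j)).trans ((hLR _).le.trans (hRm (le_max_right i j)))
  have hLb : BddAbove (Set.range L) := ⟨R 0, by rintro _ ⟨i, rfl⟩; exact hij i 0⟩
  have hRb : BddBelow (Set.range R) := ⟨L 0, by rintro _ ⟨i, rfl⟩; exact hij 0 i⟩
  set c : ℝ := ⨆ K, L K with hc
  set d : ℝ := ⨅ K, R K with hd
  have hLc : ∀ K, L K ≤ c := fun K => le_ciSup hLb K
  have hdR : ∀ K, d ≤ R K := fun K => ciInf_le hRb K
  have hcd : c ≤ d := ciSup_le fun i => le_ciInf fun j => hij i j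
  rcases hcd.lt_or_eq with hlt | heq
  · -- a free interval
    refine hK.nf W c d hlt ?_
    intro k x h1 h2
    cases k with
    | zero => exact S.run_nil t x
    | succ K => exact (hrun K x).2 ⟨(hLc K).trans_lt h1, h2.trans_le (hdR K)⟩
  · -- a periodic leaf
    have hshift : (fun i => W (p + i)) = W := by
      funext i
      rw [add_comm, hW]
    have hmap : ∀ K, L K ≤ S.g t (wd W p) c ∧ S.g t (wd W p) c ≤ R K := by
      intro K
      have h1 : Set.Ioo (L (p + K)) (R (p + K)) ⊆ (S.g t (wd W p)) ⁻¹' Set.Icc (L K) (R K) := by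
        intro x hx
        have h3 : S.Run t (wd W (p + K + 1)) x := (hrun (p + K) x).2 ⟨hx.1, hx.2⟩
        rw [add_assoc, wd_add, hshift, Surf.run_append] at h3
        have h4 := (hrun K _).1 h3.2.2
        exact ⟨h4.1.le, h4.2.le⟩
      have hcont : Continuous (S.g t (wd W p)) := by
        unfold Surf.g
        fun_prop
      have h2 := closure_minimal h1 (isClosed_Icc.preimage hcont)
      rw [closure_Ioo (hLR (p + K)).ne] at h2
      exact h2 ⟨hLc _, heq.le.trans (hdR _)⟩
    have hfix : S.g t (wd W p) c = c := by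
      apply le_antisymm
      · rw [heq]
        have : S.g t (wd W p) d = S.g t (wd W p) c := by rw [heq]
        rw [this]
        exact le_ciInf fun K => (hmap K).2
      · exact ciSup_le fun K => (hmap K).1
    have hper : ∀ j k, S.g t (wd W (j * p + k)) c = S.g t (wd W k) c ∧ W (j * p + k) = W k := by
      intro j
      induction j with
      | zero => intro k; simp
      | succ j ih =>
        intro k
        have h1 : (j + 1) * p + k = p + (j * p + k) := by ring
        refine ⟨?_, ?_⟩
        · rw [h1, wd_add, hshift, Surf.g_append, hfix]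
          exact (ih k).1
        · rw [h1, add_comm, hW]
          exact (ih k).2
    have hJ : ∀ k, S.InJ t (W k) (S.g t (wd W k) c) := by
      intro k
      by_contra hn
      have h1 := hKD n S t c₀ hK.ok.gd hK.ok.pos hK.ok.gain (wd W (3 * n * p + k + 1)) c (H _)
        (hLc _) (heq.le.trans (hdR _)) k (3 * n * p + k) (by rw [wd_length]; omega)
        (by rw [wd_length]; omega)
      rw [wd_get, wd_get, wd_take W (by omega), wd_take W (by omega), (hper _ _).1,
        (hper _ _).2] at h1
      have h2 := h1 hn hn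
      have h3 : 3 * n ≤ 3 * n * p := Nat.le_mul_of_pos_right _ hp
      omega
    have hTr : ∀ k, S.Tr t (W k, S.g t (wd W k) c) (W (k + 1), S.g t (wd W (k + 1)) c) := by
      intro k
      obtain ⟨y, hy⟩ := H (k + 1 + 1)
      rw [wd_succ, wd_succ, Surf.run_snoc] at hy
      refine ⟨hJ k, hJ (k + 1), hy.2.1, ?_⟩
      show S.g t (wd W (k + 1)) c = S.mv t (W k) (S.g t (wd W k) c)
      rw [wd_succ, Surf.g_append, Surf.g_single]
    have hmem := S.chain_tper (y := fun k => (W k, S.g t (wd W k) c)) hTr hp (by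
      intro k
      have h1 := hper 1 k
      rw [one_mul, add_comm] at h1
      show (W (k + p), S.g t (wd W (k + p)) c) = (W k, S.g t (wd W k) c)
      rw [h1.1, h1.2]) 0
    rw [hK.per] at hmem
    exact hmem

/-- Powers of one word are not realised. -/
lemma per_word (hKD : T_KD) (hLH : T_LH) (S : Surf n) (t c₀ : ℝ) (hK : S.KM t c₀)
    (u : List (Side n)) (hu : u ≠ []) :
    ∃ J : ℕ, ∀ x, ¬ S.Run t ((List.replicate J u).flatten) x := by
  by_contra hcon
  push Not at hcon
  have hp : 0 < u.length := List.length_pos_iff.2 hu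
  set W : ℕ → Side n := fun k => u[k % u.length]'(Nat.mod_lt _ hp) with hWd
  have hW : ∀ k, W (k + u.length) = W k := by
    intro k
    simp only [hWd, Nat.add_mod_right]
  have hwp : wd W u.length = u := by
    apply List.ext_getElem
    · rw [wd_length]
    · intro i h1 h2
      rw [wd_get]
      simp only [hWd, Nat.mod_eq_of_lt h2]
  have hshift : (fun i => W (u.length + i)) = W := by
    funext i
    rw [add_comm, hW]
  have hpow : ∀ J, wd W (J * u.length) = (List.replicate J u).flatten := by
    intro J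
    induction J with
    | zero => simp [wd]
    | succ J ih =>
      rw [show (J + 1) * u.length = u.length + J * u.length by ring, wd_add, hshift, hwp, ih,
        List.replicate_succ, List.flatten_cons]
  refine per_main hKD hLH S t c₀ hK W u.length hp hW ?_
  intro K
  obtain ⟨x, hx⟩ := hcon K
  rw [← hpow] at hx
  have h1 := Surf.run_take S hx K
  rw [wd_take W (Nat.le_mul_of_pos_right _ hp)] at h1
  exact ⟨x, h1⟩

lemma pow_le (S : Surf n) (t : ℝ) (u : List (Side n)) {J K : ℕ} (h : J ≤ K) (x : ℝ)
    (hx : S.Run t ((List.replicate K u).flatten) x) :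
    S.Run t ((List.replicate J u).flatten) x := by
  obtain ⟨j, rfl⟩ := Nat.exists_eq_add_of_le h
  rw [List.replicate_add, List.flatten_append, Surf.run_append] at hx
  exact hx.1

theorem pf_M_PER (hKD : T_KD) (hLH : T_LH) : M_PER := by
  intro n S t c₀ hK m
  have hF : {u : List (Side n) | u.length ≤ m}.Finite := by
    have : {u : List (Side n) | u.length ≤ m} = ⋃ k ∈ Finset.range (m + 1),
        {u : List (Side n) | u.length = k} := by
      ext u
      simp only [Set.mem_ofPred_eq, Finset.mem_range, Set.mem_iUnion, exists_prop,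
        exists_eq_right', Order.lt_add_one_iff]
    rw [this]
    exact Set.Finite.biUnion (Finset.finite_toSet _) fun k _ => List.finite_length_eq _ k
  have hJ : ∀ u : List (Side n), ∃ J : ℕ, u ≠ [] →
      ∀ x, ¬ S.Run t ((List.replicate J u).flatten) x := by
    intro u
    by_cases hu : u = []
    · exact ⟨0, fun h => (h hu).elim⟩
    · obtain ⟨J, h⟩ := per_word hKD hLH S t c₀ hK u hu
      exact ⟨J, fun _ => h⟩
  choose J hJ using hJ
  refine ⟨hF.toFinset.sup J, ?_⟩
  intro u hu hum x hx
  have h1 : J u ≤ hF.toFinset.sup J := Finset.le_sup (f := J) (by simpa using hum)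
  exact hJ u hu x (pow_le S t u h1 x hx)

end Pool.Agent.H74.GD
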